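import Pool.Agent.H922Z.NU.Defs
import Pool.Agent.Helper540.Holo

set_option autoImplicit false

open Metric Set Filter Topology
open scoped ContDiff

namespace Pool.Agent.H155Z.NU

variable {V : Type} [NormedAddCommGroup V] [NormedSpace ℝ V]

lemma geo {ρ : V → ℝ} (hρ : ContDiff ℝ ∞ ρ) {p : V} (hp : fderiv ℝ ρ p ≠ 0) :
    ∃ (ν : V) (R L : ℝ), 0 < R ∧ 0 ≤ L ∧
      (∀ y ∈ ball p R, ∀ y' ∈ ball p R, ρ y' - ρ y ≤ L * ‖y' - y‖) ∧
      ∀ y ∈ ball p R, ∀ s : ℝ, 0 ≤ s → y - s • ν ∈ ball p R → ρ (y - s • ν) ≤ ρ y - s := by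
  obtain ⟨w, hw⟩ : ∃ w, fderiv ℝ ρ p w ≠ 0 := by
    by_contra hc
    push Not at hc
    exact hp (ContinuousLinearMap.ext hc)
  set ν : V := (2 / fderiv ℝ ρ p w) • w with hν
  have h2 : fderiv ℝ ρ p ν = 2 := by rw [hν, map_smul, smul_eq_mul]; field_simp
  have hν0 : 0 < ‖ν‖ := by
    rw [norm_pos_iff]; intro h; rw [h, map_zero] at h2; norm_num at h2
  have hs := (hρ.contDiffAt (x := p)).hasStrictFDerivAt (by simp)
  have he := hs.isLittleO.def (c := ‖ν‖⁻¹) (by positivity)
  rw [nhds_prod_eq] at he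
  obtain ⟨t, ht, h⟩ := (Filter.eventually_prod_self_iff (r := fun y' y =>
    ‖ρ y' - ρ y - fderiv ℝ ρ p (y' - y)‖ ≤ ‖ν‖⁻¹ * ‖y' - y‖)).1 he
  obtain ⟨R, hR, hb⟩ := Metric.mem_nhds_iff.1 ht
  refine ⟨ν, R, ‖fderiv ℝ ρ p‖ + ‖ν‖⁻¹, hR, by positivity, fun y hy y' hy' => ?_,
    fun y hy s hs0 hy' => ?_⟩
  · have a1 := h y' (hb hy') y (hb hy)
    have a2 := (fderiv ℝ ρ p).le_opNorm (y' - y)
    simp only [Real.norm_eq_abs] at a1 a2
    have := abs_le.1 a1
    have := abs_le.1 a2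
    nlinarith
  · have a1 := h _ (hb hy') y (hb hy)
    simp only [sub_sub_cancel_left, map_neg, map_smul, h2, smul_eq_mul, norm_neg, norm_smul,
      Real.norm_eq_abs, abs_of_nonneg hs0] at a1
    have a2 : ‖ν‖⁻¹ * (s * ‖ν‖) = s := by field_simp
    rw [a2] at a1
    have := abs_le.1 a1
    linarith

lemma step {W : Type} [NormedAddCommGroup W] [NormedSpace ℝ W] {ρ : V → ℝ}
    (hρ : ContDiff ℝ ∞ ρ) (hK : IsCompact (closure {z | ρ z < 0}))
    (hd : ∀ z, ρ z = 0 → fderiv ℝ ρ z ≠ 0) {E : Set V} (hE : E ⊆ frontier {z | ρ z < 0})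
    {F g : V → W} (hg : ContinuousOn g (closure {z | ρ z < 0})) (hF : ∀ z, ρ z < 0 → F z = g z)
    (h0 : ∀ z ∈ E, g z = 0) (hdF : ∀ z, ρ z < 0 → DifferentiableAt ℝ F z) {N : ℕ} {C : ℝ}
    (hC : ∀ z, ρ z < 0 → ∀ x ∈ E, ‖fderiv ℝ F z‖ ≤ C * ‖z - x‖ ^ N) :
    ∃ C' : ℝ, ∀ z, ρ z < 0 → ∀ x ∈ E, ‖F z‖ ≤ C' * ‖z - x‖ ^ (N + 1) := by
  have hfr : ∀ x ∈ frontier {z | ρ z < 0}, ρ x = 0 := fun x hx =>
    frontier_lt_subset_eq hρ.continuous continuous_const hx
  obtain ⟨M, hM⟩ := hK.exists_bound_of_continuousOn hg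
  have hfc : IsCompact (frontier {z | ρ z < 0}) :=
    hK.of_isClosed_subset isClosed_frontier frontier_subset_closure
  have key : ∃ C' : ℝ, ∀ z, ρ z < 0 → ∀ x ∈ E, x ∈ frontier {z | ρ z < 0} →
      ‖F z‖ ≤ C' * ‖z - x‖ ^ (N + 1) := by
    refine hfc.induction_on (p := fun S => ∃ C' : ℝ, ∀ z, ρ z < 0 → ∀ x ∈ E, x ∈ S →
      ‖F z‖ ≤ C' * ‖z - x‖ ^ (N + 1)) ⟨0, by simp⟩ ?_ ?_ ?_
    · rintro s t hst ⟨C', h⟩
      exact ⟨C', fun z hz x hx hs => h z hz x hx (hst hs)⟩
    · rintro s t ⟨C₁, h1⟩ ⟨C₂, h2⟩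
      refine ⟨max C₁ C₂, fun z hz x hx hs => ?_⟩
      rcases hs with hs | hs
      · exact (h1 z hz x hx hs).trans (by gcongr; exact le_max_left _ _)
      · exact (h2 z hz x hx hs).trans (by gcongr; exact le_max_right _ _)
    intro p hp
    obtain ⟨ν, R, L, hR, hL, g1, g2⟩ := geo hρ (hd p (hfr p hp))
    set B : ℝ := 1 + (L + 1) * ‖ν‖ with hB
    have hB1 : 1 ≤ B := by rw [hB]; have : 0 ≤ (L + 1) * ‖ν‖ := by positivity
                           linarith
    set δ : ℝ := R / (2 * B) with hδ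
    have hδ0 : 0 < δ := by positivity
    refine ⟨ball p (R / 2), mem_nhdsWithin_of_mem_nhds (ball_mem_nhds p (by positivity)),
      max (|M| / δ ^ (N + 1)) (|C| * B ^ N * (2 * B)), fun z hz x hx hxp => ?_⟩
    have hx0 : ρ x = 0 := hfr x (hE hx)
    set d := ‖z - x‖ with hdd
    have hd0 : 0 < d := by
      rw [hdd, norm_pos_iff, sub_ne_zero]; rintro rfl; exact hz.ne hx0
    by_cases hbig : δ ≤ d
    · calc ‖F z‖ ≤ |M| := by rw [hF z hz]; exact (hM z (subset_closure hz)).trans (le_abs_self _)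
        _ = |M| / δ ^ (N + 1) * δ ^ (N + 1) := by field_simp
        _ ≤ _ := by gcongr; exact le_max_left _ _
    push Not at hbig
    have hBd : B * d < R / 2 := by
      have : B * δ = R / 2 := by rw [hδ]; field_simp
      rw [← this]; gcongr
    set t : ℝ := (L + 1) * d with ht
    have ht0 : 0 < t := by positivity
    have near : ∀ y ∈ segment ℝ x z, ∀ s ∈ Icc (0 : ℝ) t, ‖y - s • ν - x‖ ≤ B * d := by
      intro y hy s hs
      have a1 : ‖y - x‖ ≤ d := by
        have := (convex_closedBall x d).segment_subset (mem_closedBall_self hd0.le)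
          (show z ∈ closedBall x d by rw [mem_closedBall, dist_eq_norm]) hy
        rwa [mem_closedBall, dist_eq_norm] at this
      calc ‖y - s • ν - x‖ = ‖(y - x) - s • ν‖ := by congr 1; abel
        _ ≤ ‖y - x‖ + ‖s • ν‖ := norm_sub_le _ _
        _ ≤ d + t * ‖ν‖ := by
          rw [norm_smul, Real.norm_eq_abs, abs_of_nonneg hs.1]; gcongr; exact hs.2
        _ = B * d := by rw [hB, ht]; ring
    have inb : ∀ y ∈ segment ℝ x z, ∀ s ∈ Icc (0 : ℝ) t, y - s • ν ∈ ball p R := by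
      intro y hy s hs
      have a1 := near y hy s hs
      rw [mem_ball, dist_eq_norm] at hxp ⊢
      calc ‖y - s • ν - p‖ = ‖(y - s • ν - x) + (x - p)‖ := by congr 1; abel
        _ ≤ ‖y - s • ν - x‖ + ‖x - p‖ := norm_add_le _ _
        _ < R := by linarith
    have inb0 : ∀ y ∈ segment ℝ x z, y ∈ ball p R := fun y hy => by
      simpa using inb y hy 0 ⟨le_rfl, ht0.le⟩
    have dec : ∀ y ∈ segment ℝ x z, ∀ s ∈ Icc (0 : ℝ) t, ρ (y - s • ν) ≤ ρ y - s :=
      fun y hy s hs => g2 y (inb0 y hy) s hs.1 (inb y hy s hs)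
    have mv : ∀ a b : V, (∀ y ∈ segment ℝ a b, ρ y < 0 ∧ ‖y - x‖ ≤ B * d) →
        ‖F b - F a‖ ≤ |C| * (B * d) ^ N * ‖b - a‖ := by
      intro a b h
      refine (convex_segment a b).norm_image_sub_le_of_norm_fderiv_le
        (fun y hy => hdF y (h y hy).1) (fun y hy => ?_) (left_mem_segment _ _ _)
        (right_mem_segment _ _ _)
      refine (hC y (h y hy).1 x hx).trans ?_
      have := (h y hy).2
      gcongr
      exact le_abs_self _
    have vert : ∀ y ∈ segment ℝ x z, ∀ s ∈ Icc (0 : ℝ) t, ρ y - s < 0 →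
        ‖F (y - t • ν) - F (y - s • ν)‖ ≤ |C| * (B * d) ^ N * (t * ‖ν‖) := by
      intro y hy s hs hneg
      refine (mv _ _ ?_).trans ?_
      · rintro _ ⟨a, b, ha, hb, hab, rfl⟩
        have e : a • (y - s • ν) + b • (y - t • ν) = y - (a * s + b * t) • ν := by
          have : a • (y - s • ν) + b • (y - t • ν) = (a + b) • y - (a * s + b * t) • ν := by
            module
          rw [this, hab, one_smul]
        have m1 : s ≤ a * s + b * t := by
          have := mul_le_mul_of_nonneg_left hs.2 hb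
          have e2 : s = a * s + b * s := by rw [← add_mul, hab, one_mul]
          linarith
        have m2 : a * s + b * t ≤ t := by
          have := mul_le_mul_of_nonneg_left hs.2 ha
          have e2 : t = a * t + b * t := by rw [← add_mul, hab, one_mul]
          linarith
        rw [e]
        exact ⟨by linarith [dec y hy _ ⟨hs.1.trans m1, m2⟩], near y hy _ ⟨hs.1.trans m1, m2⟩⟩
      · have : y - t • ν - (y - s • ν) = -((t - s) • ν) := by rw [sub_smul]; abel
        rw [this, norm_neg, norm_smul, Real.norm_eq_abs,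
          abs_of_nonneg (show 0 ≤ t - s by linarith [hs.2])]
        gcongr; linarith [hs.1]
    have s1 : ‖F (x - t • ν)‖ ≤ |C| * (B * d) ^ N * (t * ‖ν‖) := by
      have hD : ∀ s ∈ Ioc (0 : ℝ) t, ρ (x - s • ν) < 0 := fun s hs => by
        linarith [dec x (left_mem_segment _ _ _) s ⟨hs.1.le, hs.2⟩, hs.1]
      have t1 : Tendsto (fun s : ℝ => x - s • ν) (𝓝[>] 0) (𝓝[closure {z | ρ z < 0}] x) := by
        refine tendsto_nhdsWithin_iff.2 ⟨?_, ?_⟩
        · have : Continuous fun s : ℝ => x - s • ν := by fun_prop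
          simpa using (this.tendsto 0).mono_left nhdsWithin_le_nhds
        · filter_upwards [Ioc_mem_nhdsGT ht0] with s hs using subset_closure (hD s hs)
      have t2 := ((hg x (frontier_subset_closure (hE hx))).tendsto.comp t1)
      rw [h0 x hx] at t2
      have t3 := ((tendsto_const_nhds (x := F (x - t • ν))).sub t2).norm
      rw [sub_zero] at t3
      refine le_of_tendsto t3 ?_
      filter_upwards [Ioc_mem_nhdsGT ht0] with s hs
      simp only [Function.comp]
      rw [← hF _ (hD s hs)]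
      exact vert x (left_mem_segment _ _ _) s ⟨hs.1.le, hs.2⟩ (by linarith [hs.1])
    have s2 : ‖F (z - t • ν) - F (x - t • ν)‖ ≤ |C| * (B * d) ^ N * d := by
      refine (mv _ _ ?_).trans (by rw [sub_sub_sub_cancel_right])
      rintro _ ⟨a, b, ha, hb, hab, rfl⟩
      have hy : a • x + b • z ∈ segment ℝ x z := ⟨a, b, ha, hb, hab, rfl⟩
      have e : a • (x - t • ν) + b • (z - t • ν) = (a • x + b • z) - t • ν := by
        rw [smul_sub, smul_sub,
          show a • x - a • t • ν + (b • z - b • t • ν) = a • x + b • z - (a + b) • t • ν by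
            rw [add_smul]; abel, hab, one_smul]
      rw [e]
      refine ⟨?_, near _ hy _ ⟨ht0.le, le_rfl⟩⟩
      have a1 := dec _ hy t ⟨ht0.le, le_rfl⟩
      have a2 := g1 x (inb0 x (left_mem_segment _ _ _)) _ (inb0 _ hy)
      have a3 : ‖a • x + b • z - x‖ ≤ d := by
        have := (convex_closedBall x d).segment_subset (mem_closedBall_self hd0.le)
          (show z ∈ closedBall x d by rw [mem_closedBall, dist_eq_norm]) hy
        rwa [mem_closedBall, dist_eq_norm] at this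
      have a4 := mul_le_mul_of_nonneg_left a3 hL
      rw [ht] at a1 ⊢
      linarith
    have s3 := vert z (right_mem_segment _ _ _) 0 ⟨le_rfl, ht0.le⟩ (by linarith)
    rw [zero_smul, sub_zero] at s3
    have e : F z = F (x - t • ν) + (F (z - t • ν) - F (x - t • ν)) - (F (z - t • ν) - F z) := by
      abel
    calc ‖F z‖ ≤ ‖F (x - t • ν)‖ + ‖F (z - t • ν) - F (x - t • ν)‖ + ‖F (z - t • ν) - F z‖ := by
          rw [e]
          exact (norm_sub_le _ _).trans (by rw [← e]; gcongr; exact norm_add_le _ _)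
      _ ≤ |C| * (B * d) ^ N * (2 * (t * ‖ν‖) + d) := by linarith
      _ ≤ |C| * (B * d) ^ N * (2 * B * d) := by
          gcongr
          rw [hB, ht]; nlinarith
      _ = |C| * B ^ N * (2 * B) * d ^ (N + 1) := by rw [mul_pow]; ring
      _ ≤ _ := by gcongr; exact le_max_right _ _
  obtain ⟨C', h⟩ := key
  exact ⟨C', fun z hz x hx => h z hz x hx (hE hx)⟩

theorem t9 : Pool.Agent.H922Z.NU.T9 := by
  intro n ρ hρ hb hd E hE f hf hg N
  have hK : IsCompact (closure {z | ρ z < 0}) := hb.isCompact_closure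
  have ho : IsOpen {z | ρ z < 0} := isOpen_lt hρ.continuous continuous_const
  have key : ∀ N k : ℕ, ∃ C : ℝ, ∀ z, ρ z < 0 → ∀ x ∈ E,
      ‖iteratedFDeriv ℝ k f z‖ ≤ C * ‖z - x‖ ^ N := by
    intro N
    induction N with
    | zero =>
      intro k
      obtain ⟨g, g1, g2, -⟩ := hg k
      obtain ⟨M, hM⟩ := hK.exists_bound_of_continuousOn g1
      exact ⟨M, fun z hz x _ => by rw [g2 z hz, pow_zero, mul_one]; exact hM z (subset_closure hz)⟩
    | succ N ih =>
      intro k
      obtain ⟨g, g1, g2, g3⟩ := hg k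
      obtain ⟨C, hC⟩ := ih (k + 1)
      refine step hρ hK hd hE g1 g2 g3 (fun z hz => ?_) (N := N) (C := C) fun z hz x hx => ?_
      · have := ((Pool.Agent.Helper540.contDiffOn_of_differentiableOn ho hf (k + 1)).contDiffAt
          (ho.mem_nhds hz)).restrict_scalars ℝ
        exact this.differentiableAt_iteratedFDeriv (by exact_mod_cast Nat.lt_succ_self k)
      · rw [norm_fderiv_iteratedFDeriv]; exact hC z hz x hx
  obtain ⟨C, hC⟩ := key N 0
  exact ⟨C, fun z hz x hx => by simpa using hC z hz x hx⟩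

end Pool.Agent.H155Z.NU
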